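import Pool.Agent.Y738.PE.Stm2

/-! # G3: the sum over the values in a block is the PEPS vector -/

open scoped BigOperators ComplexConjugate Classical

noncomputable section

namespace Pool.Agent.Y170.PE

open Pool.Agent.Y738.PE

theorem const_of {m : ℕ} [NeZero m] {K : Type} (f : ZMod m → K)
    (h : ∀ a, a ≠ 0 → f (a - 1) = f a) (a b : ZMod m) : f a = f b := by
  have h1 : ∀ n : ℕ, n < m → f (n : ZMod m) = f 0 := by
    intro n
    induction n with
    | zero =>
      intro _
      rw [Nat.cast_zero]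
    | succ n ih =>
      intro hn
      have h2 : ((n + 1 : ℕ) : ZMod m) ≠ 0 := by
        rw [Ne, ZMod.natCast_eq_zero_iff]
        intro h3
        have := Nat.le_of_dvd (Nat.succ_pos n) h3
        omega
      have h4 := h _ h2
      rw [Nat.cast_succ, add_sub_cancel_right] at h4
      rw [Nat.cast_succ, ← h4]
      exact ih (by omega)
  have h5 : ∀ c : ZMod m, f c = f 0 := by
    intro c
    have h6 := h1 c.val (ZMod.val_lt c)
    rwa [ZMod.natCast_zmod_val] at h6
  rw [h5 a, h5 b]

/-- the values belonging to the bonds -/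
def GG {m : ℕ} {K : Type} (q : (Site m → K) × (Site m → K)) : Site m → K × K × K × K :=
  fun p => (q.1 p, q.1 (-1, p.2), q.2 p, q.2 (p.1, -1))

theorem GG_inj {m : ℕ} {K : Type} : Function.Injective (GG (m := m) (K := K)) := by
  intro q q' h
  have h1 : ∀ p, q.1 p = q'.1 p := fun p => congrArg (fun x => x.1) (congrFun h p)
  have h2 : ∀ p, q.2 p = q'.2 p := fun p => congrArg (fun x => x.2.2.1) (congrFun h p)
  exact Prod.ext (funext h1) (funext h2)

/-- **G3.** -/
theorem blockSum : Pool.Agent.Y738.PE.StmBlockSum := by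
  intro d m _ K _ C s
  symm
  unfold pepsN
  rw [← Fintype.sum_prod_type'
    (fun (hor : Site m → K) (ver : Site m → K) => ∏ v : Site m,
      C v (s v) (hor (v.1 - 1, v.2)) (hor v) (ver (v.1, v.2 - 1)) (ver v))]
  refine Fintype.sum_of_injective GG GG_inj _ _ ?_ ?_
  · intro g hg
    by_contra hne
    apply hg
    have hc : ∀ p : Site m, (p.1 = -1 → (g p).1 = (g p).2.1) ∧
        (p.2 = -1 → (g p).2.2.1 = (g p).2.2.2) ∧
        (p.1 ≠ 0 → (g (p.1 - 1, p.2)).2.1 = (g p).2.1) ∧
        (p.2 ≠ 0 → (g (p.1, p.2 - 1)).2.2.2 = (g p).2.2.2) := by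
      intro p
      by_contra hcon
      apply hne
      refine Finset.prod_eq_zero (Finset.mem_univ p) ?_
      unfold wI
      exact if_neg hcon
    refine ⟨(fun p => (g p).1, fun p => (g p).2.2.1), ?_⟩
    funext p
    have h1 : (g (-1, p.2)).1 = (g p).2.1 := by
      have h2 := (hc (-1, p.2)).1 rfl
      have h3 := const_of (fun a => (g (a, p.2)).2.1) (fun a ha => (hc (a, p.2)).2.2.1 ha) (-1) p.1
      rw [h2]
      exact h3
    have h4 : (g (p.1, -1)).2.2.1 = (g p).2.2.2 := by
      have h2 := (hc (p.1, -1)).2.1 rfl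
      have h3 := const_of (fun a => (g (p.1, a)).2.2.2) (fun a ha => (hc (p.1, a)).2.2.2 ha) (-1) p.2
      rw [h2]
      exact h3
    show ((g p).1, (g (-1, p.2)).1, (g p).2.2.1, (g (p.1, -1)).2.2.1) = g p
    rw [h1, h4]
  · rintro ⟨hor, ver⟩
    refine Finset.prod_congr rfl fun p _ => ?_
    have hcond : (p.1 = -1 → (GG (hor, ver) p).1 = (GG (hor, ver) p).2.1) ∧
        (p.2 = -1 → (GG (hor, ver) p).2.2.1 = (GG (hor, ver) p).2.2.2) ∧
        (p.1 ≠ 0 → (GG (hor, ver) (p.1 - 1, p.2)).2.1 = (GG (hor, ver) p).2.1) ∧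
        (p.2 ≠ 0 → (GG (hor, ver) (p.1, p.2 - 1)).2.2.2 = (GG (hor, ver) p).2.2.2) := by
      refine ⟨fun h => ?_, fun h => ?_, fun _ => rfl, fun _ => rfl⟩
      · show hor p = hor (-1, p.2)
        rw [← h]
      · show ver p = ver (p.1, -1)
        rw [← h]
    unfold wI
    rw [if_pos hcond]
    have e1 : (if p.1 = 0 then (GG (hor, ver) p).2.1 else (GG (hor, ver) (p.1 - 1, p.2)).1) =
        hor (p.1 - 1, p.2) := by
      by_cases h : p.1 = 0
      · rw [if_pos h, h, zero_sub]
        rfl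
      · rw [if_neg h]
        rfl
    have e2 : (if p.2 = 0 then (GG (hor, ver) p).2.2.2 else
        (GG (hor, ver) (p.1, p.2 - 1)).2.2.1) = ver (p.1, p.2 - 1) := by
      by_cases h : p.2 = 0
      · rw [if_pos h, h, zero_sub]
        rfl
      · rw [if_neg h]
        rfl
    rw [e1, e2]
    rfl

end Pool.Agent.Y170.PE
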